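import Pool.Agent.Y37.KN.L2

/-!
# (S_ann) commutative algebras with positive involution acting on spaces of multilinear forms
(project KN of helper150; helper37, job 894)
-/

set_option autoImplicit false
set_option linter.all false

namespace Pool.Agent.Y37.KN

universe u v w

open Pool.Agent.Y150.KN

/-! ### Commutative algebras with positive involution -/

/-- In a finite-dimensional commutative algebra with positive involution `U` divides `σ U`. -/
theorem star_dvd {R : Type*} [Ring R] [Algebra ℚ R] (P : Submodule ℚ R) [FiniteDimensional ℚ P]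
    (hmul : ∀ x ∈ P, ∀ y ∈ P, x * y ∈ P) (hcomm : ∀ x ∈ P, ∀ y ∈ P, x * y = y * x)
    (σ : R →+* R) (hσ : ∀ x ∈ P, σ x ∈ P) (hσσ : ∀ x, σ (σ x) = x)
    (hpos : ∀ x ∈ P, x * σ x = 0 → x = 0) {U : R} (hU : U ∈ P) : ∃ D ∈ P, σ U = D * U := by
  have hU' := hσ U hU
  have k1 : ∀ x ∈ P, U * x = 0 → σ U * x = 0 := by
    intro x hx h0
    apply hpos _ (hmul _ hU' _ hx)
    rw [map_mul, hσσ]
    have h1 : σ U * x * (U * σ x) = σ U * (U * x) * σ x := by
      rw [← mul_assoc, mul_assoc (σ U) x U, hcomm x hx U hU]
    rw [h1, h0, mul_zero, zero_mul]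
  have k2 : ∀ x ∈ P, U * (U * x) = 0 → U * x = 0 := by
    intro x hx h0
    have h1 := k1 _ (hmul _ hU _ hx) h0
    apply hpos _ (hmul _ hU _ hx)
    rw [map_mul]
    have h2 : U * x * (σ U * σ x) = σ U * (U * x) * σ x := by
      rw [← mul_assoc, hcomm (U * x) (hmul _ hU _ hx) (σ U) hU']
    rw [h2, h1, zero_mul]
  let L : P →ₗ[ℚ] P :=
    { toFun := fun x => ⟨U * x.1, hmul _ hU _ x.2⟩
      map_add' := fun x y => Subtype.ext (mul_add _ _ _)
      map_smul' := fun q x => Subtype.ext (mul_smul_comm _ _ _) }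
  have hL : ∀ x : P, (L x : R) = U * x := fun _ => rfl
  have hker : LinearMap.ker (L ∘ₗ L) = LinearMap.ker L := by
    ext x
    rw [LinearMap.mem_ker, LinearMap.mem_ker, LinearMap.comp_apply]
    constructor
    · intro h0
      have h1 := congrArg (fun z : P => (z : R)) h0
      simp only [hL, ZeroMemClass.coe_zero] at h1
      exact Subtype.ext (k2 _ x.2 h1)
    · intro h0
      rw [h0, map_zero]
  have hrange : LinearMap.range (L ∘ₗ L) = LinearMap.range L := by
    apply Submodule.eq_of_le_of_finrank_eq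
    · rintro _ ⟨x, rfl⟩
      exact ⟨L x, rfl⟩
    · have h1 := LinearMap.finrank_range_add_finrank_ker (L ∘ₗ L)
      have h2 := LinearMap.finrank_range_add_finrank_ker L
      rw [hker] at h1
      omega
  have hmem : L ⟨σ U, hU'⟩ ∈ LinearMap.range (L ∘ₗ L) := by
    rw [hrange]
    exact ⟨_, rfl⟩
  obtain ⟨y, hy⟩ := hmem
  have hy1 : U * (U * y) = U * σ U := congrArg (fun z : P => (z : R)) hy
  have hk : σ U - U * y ∈ P := P.sub_mem hU' (hmul _ hU _ y.2)
  have h1 : U * (σ U - U * y) = 0 := by rw [mul_sub, hy1, sub_self]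
  have h2 := k1 _ hk h1
  have h3 : σ U * σ (σ U - U * y) = 0 := by rw [← map_mul, h1, map_zero]
  have h4 : U * σ (σ U - U * y) = 0 := by
    rw [← hσσ U, ← map_mul, hσσ U, h2, map_zero]
  have h5 : σ U - U * y = 0 := by
    apply hpos _ hk
    generalize σ (σ U - U * y.1) = z at h3 h4 ⊢
    rw [sub_mul, h3, hcomm U hU y.1 y.2, mul_assoc, h4, mul_zero, sub_zero]
  refine ⟨y, y.2, ?_⟩
  rw [hcomm y.1 y.2 U hU, ← sub_eq_zero]
  exact h5

section Forms

variable {K : Type v} [Field K] {V : Type v} [AddCommGroup V] [Module K V] {n m : ℕ}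
  {e e' : Module.Basis (Fin n) K V} {ψ : V →ₗ[K] V →ₗ[K] K}

/-- adjoint operators -/
def Adj (ψ : V →ₗ[K] V →ₗ[K] K) (a a' : Module.End K V) : Prop := ∀ x y, ψ (a x) y = ψ x (a' y)

section
variable (hee : ∀ i j, ψ (e i) (e' j) = if i = j then 1 else 0)
include hee

theorem repr_e (x : V) (i : Fin n) : e.repr x i = ψ x (e' i) := by
  conv_rhs => rw [← e.sum_repr x]
  rw [map_sum, LinearMap.sum_apply]
  simp [hee]

theorem repr_e' (y : V) (j : Fin n) : e'.repr y j = ψ (e j) y := by
  conv_rhs => rw [← e'.sum_repr y]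
  rw [map_sum]
  simp [hee]

theorem adj_unique {a b c : Module.End K V} (hb : Adj ψ a b) (hc : Adj ψ a c) : b = c := by
  ext y
  apply e'.repr.injective
  ext j
  rw [repr_e' hee, repr_e' hee, ← hb, ← hc]

theorem trace_eq (a : Module.End K V) : LinearMap.trace K V a = ∑ i, ψ (a (e i)) (e' i) := by
  rw [LinearMap.trace_eq_matrix_trace K e, Matrix.trace]
  refine Finset.sum_congr rfl fun i _ => ?_
  rw [Matrix.diag_apply, LinearMap.toMatrix_apply, repr_e hee]

theorem trace_eq' (a : Module.End K V) : LinearMap.trace K V a = ∑ i, ψ (e i) (a (e' i)) := by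
  rw [LinearMap.trace_eq_matrix_trace K e', Matrix.trace]
  refine Finset.sum_congr rfl fun i _ => ?_
  rw [Matrix.diag_apply, LinearMap.toMatrix_apply, repr_e' hee]

theorem trace_adj {a a' : Module.End K V} (h : Adj ψ a a') :
    LinearMap.trace K V a' = LinearMap.trace K V a := by
  rw [trace_eq' hee, trace_eq hee]
  exact Finset.sum_congr rfl fun i _ => (h _ _).symm

end

theorem adj_symm (hanti : ∀ x y, ψ y x = - ψ x y) {a a' : Module.End K V} (h : Adj ψ a a') :
    Adj ψ a' a := by
  intro x y
  rw [hanti y (a' x), ← h, hanti x (a y), neg_neg]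

theorem adj_mul {a a' b b' : Module.End K V} (ha : Adj ψ a a') (hb : Adj ψ b b') :
    Adj ψ (a * b) (b' * a') := by
  intro x y
  rw [Module.End.mul_apply, Module.End.mul_apply, ha, hb]

theorem adj_add {a a' b b' : Module.End K V} (ha : Adj ψ a a') (hb : Adj ψ b b') :
    Adj ψ (a + b) (a' + b') := by
  intro x y
  rw [LinearMap.add_apply, map_add, LinearMap.add_apply, ha, hb, LinearMap.add_apply, map_add]

theorem adj_smul (c : K) {a a' : Module.End K V} (ha : Adj ψ a a') : Adj ψ (c • a) (c • a') := by
  intro x y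
  rw [LinearMap.smul_apply, map_smul, LinearMap.smul_apply, ha, LinearMap.smul_apply, map_smul]

theorem adj_zero : Adj ψ 0 0 := by
  intro x y
  simp

theorem adj_sum {ι : Type*} (s : Finset ι) {a a' : ι → Module.End K V}
    (h : ∀ i ∈ s, Adj ψ (a i) (a' i)) : Adj ψ (∑ i ∈ s, a i) (∑ i ∈ s, a' i) := by
  classical
  induction s using Finset.induction_on with
  | empty => exact adj_zero
  | insert i s hi ih =>
    rw [Finset.sum_insert hi, Finset.sum_insert hi]
    exact adj_add (h i (Finset.mem_insert_self _ _))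
      (ih fun j hj => h j (Finset.mem_insert_of_mem hj))

/-! ### Operators on the slots -/

/-- the space of forms -/
abbrev MF (K : Type v) [Field K] (V : Type v) [AddCommGroup V] [Module K V] (m : ℕ) : Type v :=
  MultilinearMap K (fun _ : Fin m => V) K

/-- the slot operator -/
def T (c : Fin m → Module.End K V) : Module.End K (MF K V m) :=
  MultilinearMap.compLinearMapₗ c

theorem T_apply (c : Fin m → Module.End K V) (f : MF K V m) : T c f = f.compLinearMap c := rfl

theorem T_mul (c d : Fin m → Module.End K V) : T c * T d = T fun s => d s * c s := by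
  ext f x
  rfl

theorem T_sum {r : ℕ} (c : Fin r → Module.End K V) (p : Fin m → Fin r → K) :
    T (fun s => ∑ i, p s i • c i) = ∑ J : Fin m → Fin r, (∏ s, p s (J s)) • T fun s => c (J s) := by
  ext f x
  rw [LinearMap.sum_apply, MultilinearMap.sum_apply, T_apply, MultilinearMap.compLinearMap_apply]
  have h1 : (fun s => (∑ i, p s i • c i) (x s)) = fun s => ∑ i, p s i • c i (x s) := by
    funext s
    rw [LinearMap.sum_apply]
    rfl
  rw [h1, MultilinearMap.map_sum]
  refine Finset.sum_congr rfl fun J _ => ?_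
  rw [MultilinearMap.map_smul_univ]
  rfl

/-- the dual basis of forms -/
noncomputable def eps (e : Module.Basis (Fin n) K V) (I : Fin m → Fin n) : MF K V m :=
  (MultilinearMap.mkPiAlgebra K (Fin m) K).compLinearMap fun s => e.coord (I s)

/-- a trace on the operators -/
noncomputable def lam (e : Module.Basis (Fin n) K V) : Module.End K (MF K V m) →ₗ[K] K where
  toFun S := ∑ I : Fin m → Fin n, (S (eps e I)) fun s => e (I s)
  map_add' S S' := by
    simp only [LinearMap.add_apply, MultilinearMap.add_apply, Finset.sum_add_distrib]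
  map_smul' c S := by
    simp only [LinearMap.smul_apply, MultilinearMap.smul_apply, Finset.smul_sum, RingHom.id_apply]

theorem lam_T (e : Module.Basis (Fin n) K V) (c : Fin m → Module.End K V) :
    lam e (T c) = ∏ s, LinearMap.trace K V (c s) := by
  have h1 : ∀ s, LinearMap.trace K V (c s) = ∑ i, e.coord i (c s (e i)) := by
    intro s
    rw [LinearMap.trace_eq_matrix_trace K e, Matrix.trace]
    refine Finset.sum_congr rfl fun i _ => ?_
    rw [Matrix.diag_apply, LinearMap.toMatrix_apply, Module.Basis.coord_apply]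
  simp only [h1]
  rw [Finset.prod_univ_sum, Fintype.piFinset_univ]
  change ∑ I : Fin m → Fin n, _ = _
  refine Finset.sum_congr rfl fun I _ => ?_
  rw [T_apply, MultilinearMap.compLinearMap_apply, eps, MultilinearMap.compLinearMap_apply,
    MultilinearMap.mkPiAlgebra_apply]

end Forms

section orth

variable {K : Type v} [Field K] [CharZero K] {V : Type v} [AddCommGroup V] [Module K V] {n : ℕ}
  {e e' : Module.Basis (Fin n) K V} {ψ : V →ₗ[K] V →ₗ[K] K}

/-- An algebra with positive rational trace form has an orthogonal rational basis. -/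
theorem exists_orth (hee : ∀ i j, ψ (e i) (e' j) = if i = j then 1 else 0)
    (hanti : ∀ x y, ψ y x = - ψ x y) (C : Subring (Module.End K V))
    (hCQ : ∀ q : ℚ, ∀ a ∈ C, (q : K) • a ∈ C)
    (hst : ∀ a ∈ C, ∃ a' ∈ C, Adj ψ a a' ∧
      ∃ q : ℚ, LinearMap.trace K V (a * a') = (q : K) ∧ (a ≠ 0 → 0 < q)) :
    ∃ (r : ℕ) (c c' : Fin r → Module.End K V) (t : Fin r → ℚ), (∀ i, c i ∈ C) ∧
      (∀ i, c' i ∈ C) ∧ (∀ i, Adj ψ (c i) (c' i)) ∧ (∀ i, 0 < t i) ∧
      (∀ i j, LinearMap.trace K V (c i * c' j) = if i = j then (t i : K) else 0) ∧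
      ∀ a ∈ C, ∃ q : Fin r → ℚ, a = ∑ i, (q i : K) • c i := by
  classical
  let _ : Module ℚ (Module.End K V) := Module.compHom (Module.End K V) (algebraMap ℚ K)
  have hsm : ∀ (q : ℚ) (x : Module.End K V), q • x = (q : K) • x := by
    intro q x
    change (algebraMap ℚ K q) • x = _
    rw [eq_ratCast]
  let S : Submodule ℚ (Module.End K V) :=
    { carrier := C
      add_mem' := fun ha hb => C.add_mem ha hb
      zero_mem' := C.zero_mem
      smul_mem' := fun q x hx => by
        rw [hsm]
        exact hCQ q x hx }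
  have hfV : Module.Finite K V := Module.Finite.of_basis e
  have h1 : ∀ a : S, ∃ a' : S, Adj ψ (a : Module.End K V) a' ∧
      ∃ q : ℚ, LinearMap.trace K V ((a : Module.End K V) * a') = (q : K) ∧ (a ≠ 0 → 0 < q) := by
    intro a
    obtain ⟨a', ha', h2, q, h3, h4⟩ := hst a a.2
    exact ⟨⟨a', ha'⟩, h2, q, h3, fun h => h4 fun h' => h (Subtype.ext h')⟩
  choose st hadj hq using h1
  have hst_add : ∀ a b : S, (st (a + b) : Module.End K V) = st a + st b := fun a b =>
    adj_unique hee (hadj (a + b)) (adj_add (hadj a) (hadj b))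
  have htr : ∀ a b : S, LinearMap.trace K V ((b : Module.End K V) * st a) =
      LinearMap.trace K V ((a : Module.End K V) * st b) := fun a b =>
    trace_adj hee (adj_mul (hadj a) (adj_symm hanti (hadj b)))
  have hB : ∀ a b : S, ∃ q : ℚ, LinearMap.trace K V ((a : Module.End K V) * st b) = (q : K) := by
    intro a b
    obtain ⟨q1, h1, -⟩ := hq (a + b)
    obtain ⟨q2, h2, -⟩ := hq a
    obtain ⟨q3, h3, -⟩ := hq b
    rw [hst_add, Submodule.coe_add, add_mul, mul_add, mul_add, map_add, map_add, map_add, h2, h3,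
      htr a b] at h1
    refine ⟨(q1 - q2 - q3) / 2, ?_⟩
    push_cast
    rw [← h1]
    ring
  choose B hB using hB
  have hBs : ∀ a b, B a b = B b a := by
    intro a b
    have : (B a b : K) = B b a := by rw [← hB, ← hB, htr]
    exact_mod_cast this
  have hBadd : ∀ a a' b, B (a + a') b = B a b + B a' b := by
    intro a a' b
    have : (B (a + a') b : K) = B a b + B a' b := by
      rw [← hB, ← hB, ← hB, Submodule.coe_add, add_mul, map_add]
    exact_mod_cast this
  have hBsm : ∀ (q : ℚ) a b, B (q • a) b = q * B a b := by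
    intro q a b
    have : (B (q • a) b : K) = q * B a b := by
      rw [← hB, ← hB, Submodule.coe_smul, hsm, smul_mul_assoc, map_smul, smul_eq_mul]
    exact_mod_cast this
  have hBpos : ∀ a, a ≠ 0 → 0 < B a a := by
    intro a ha
    obtain ⟨q, h2, h3⟩ := hq a
    have : (B a a : K) = q := by rw [← hB, h2]
    have h4 : B a a = q := by exact_mod_cast this
    rw [h4]
    exact h3 ha
  let Bf : LinearMap.BilinForm ℚ S := LinearMap.mk₂ ℚ B hBadd hBsm
    (fun a b b' => by rw [hBs, hBadd, hBs b, hBs b'])
    (fun q a b => by rw [hBs, hBsm, hBs b]; rfl)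
  have hBf : ∀ a b, Bf a b = B a b := fun _ _ => rfl
  -- finiteness
  let b := Module.Basis.ofVectorSpace ℚ S
  have hli : LinearIndependent K (fun i => (b i : Module.End K V)) := by
    rw [linearIndependent_iff']
    intro s g hg i0 hi0
    obtain ⟨L, θ, r, hθ, hr⟩ := exists_ri (fun i : s => g i)
    let x : Fin L → S := fun l => ∑ i : s, r i l • b i
    have hx : ∀ l, (x l : Module.End K V) = ∑ i : s, (r i l : K) • (b i : Module.End K V) := by
      intro l
      simp only [x, AddSubmonoidClass.coe_finsetSum, Submodule.coe_smul, hsm]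
    have h2 : ∑ l, θ l • (x l : Module.End K V) = 0 := by
      rw [← hg, ← Finset.sum_coe_sort s (fun i => g i • (b i : Module.End K V))]
      simp only [hx, Finset.smul_sum]
      rw [Finset.sum_comm]
      refine Finset.sum_congr rfl fun i _ => ?_
      rw [hr i, Finset.sum_smul]
      refine Finset.sum_congr rfl fun l _ => ?_
      rw [smul_smul, mul_comm]
    have h3 : ∀ (y : S) (l : Fin L), B (x l) y = 0 := by
      intro y
      have h4 := congrArg (fun z => LinearMap.trace K V (z * (st y : Module.End K V))) h2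
      simp only [Finset.sum_mul, map_sum, zero_mul, map_zero, smul_mul_assoc, map_smul, hB,
        smul_eq_mul] at h4
      have h5 := hθ (fun l => B (x l) y) (by
        rw [← h4]
        exact Finset.sum_congr rfl fun l _ => mul_comm _ _)
      exact fun l => congrFun h5 l
    have h6 : ∀ l, x l = 0 := by
      intro l
      by_contra h
      have := hBpos _ h
      rw [h3] at this
      exact lt_irrefl _ this
    have h7 : ∀ l, r ⟨i0, hi0⟩ l = 0 := by
      intro l
      have h8 : LinearIndependent ℚ (fun i : s => b i) :=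
        b.linearIndependent.comp _ Subtype.val_injective
      exact Fintype.linearIndependent_iff.1 h8 (fun i => r i l) (h6 l) ⟨i0, hi0⟩
    have h9 := hr ⟨i0, hi0⟩
    simp only at h9
    rw [h9]
    refine Finset.sum_eq_zero fun l _ => ?_
    rw [h7, Rat.cast_zero, zero_mul]
  have hfin := hli.finite_of_isNoetherian
  have hfS : Module.Finite ℚ S := Module.Finite.of_basis b
  have : Invertible (2 : ℚ) := invertibleOfNonzero two_ne_zero
  obtain ⟨v, hv⟩ := LinearMap.BilinForm.exists_orthogonal_basis (B := Bf)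
    ⟨fun x y => by
      rw [hBf, hBf, hBs]
      rfl⟩
  refine ⟨_, fun i => (v i : Module.End K V), fun i => (st (v i) : Module.End K V),
    fun i => B (v i) (v i), fun i => (v i).2, fun i => (st (v i)).2, fun i => hadj _,
    fun i => hBpos _ (v.ne_zero i), ?_, ?_⟩
  · intro i j
    rw [hB]
    split_ifs with h
    · rw [h]
    · have h2 : Bf (v i) (v j) = 0 := hv h
      rw [hBf] at h2
      rw [h2, Rat.cast_zero]
  · intro a ha
    refine ⟨fun i => v.repr ⟨a, ha⟩ i, ?_⟩
    have h2 := congrArg (fun z : S => (z : Module.End K V)) (v.sum_repr ⟨a, ha⟩)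
    simp only [AddSubmonoidClass.coe_finsetSum, Submodule.coe_smul, hsm] at h2
    exact h2.symm

end orth

section abs

variable {K E ι : Type*} [Field K] [CharZero K] [Ring E] [Algebra K E] [Fintype ι]
  [DecidableEq ι]

/-- The abstract form of the argument: `τ'` are the adjoints of the operators `τ`. -/
theorem abs_star (τ τ' : ι → E) (t : ι → ℚ) (lam : E →ₗ[K] K) (ht : ∀ i, 0 < t i)
    (hmul : ∀ i j, ∃ q : ι → ℚ, τ i * τ j = ∑ l, (q l : K) • τ l ∧
      τ' i * τ' j = ∑ l, (q l : K) • τ' l)
    (hcomm : ∀ i j, τ i * τ j = τ j * τ i) (hcomm' : ∀ i j, τ' i * τ' j = τ' j * τ' i)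
    (hswap : ∀ i, ∃ q : ι → ℚ, τ' i = ∑ l, (q l : K) • τ l ∧ τ i = ∑ l, (q l : K) • τ' l)
    (hlam : ∀ i j, lam (τ i * τ' j) = if i = j then (t i : K) else 0) (q : ι → ℚ) :
    ∃ D : E, ∑ l, (q l : K) • τ' l = D * ∑ l, (q l : K) • τ l := by
  let _ : Algebra ℚ E := Algebra.compHom E (algebraMap ℚ K)
  have hsm : ∀ (q : ℚ) (x : E), q • x = (q : K) • x := by
    intro q x
    change (algebraMap ℚ K q) • x = _
    rw [eq_ratCast]
  let TJ : ι → E × E := fun J => (τ J, τ' J)
  let P : Submodule ℚ (E × E) := Submodule.span ℚ (Set.range TJ)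
  have hPfin : FiniteDimensional ℚ P := FiniteDimensional.span_of_finite ℚ (Set.finite_range TJ)
  have hfst : ∀ q : ι → ℚ, (∑ l, q l • TJ l).1 = ∑ l, (q l : K) • τ l := by
    intro q
    rw [Prod.fst_sum]
    exact Finset.sum_congr rfl fun l _ => hsm _ _
  have hsnd : ∀ q : ι → ℚ, (∑ l, q l • TJ l).2 = ∑ l, (q l : K) • τ' l := by
    intro q
    rw [Prod.snd_sum]
    exact Finset.sum_congr rfl fun l _ => hsm _ _
  have hP : ∀ (x : E × E) (q : ι → ℚ), x.1 = ∑ l, (q l : K) • τ l →
      x.2 = ∑ l, (q l : K) • τ' l → x ∈ P := by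
    intro x q h1 h2
    have h3 : x = ∑ l, q l • TJ l := Prod.ext (by rw [h1, hfst]) (by rw [h2, hsnd])
    rw [h3]
    exact Submodule.sum_mem _ fun J _ => Submodule.smul_mem _ _ (Submodule.subset_span ⟨J, rfl⟩)
  have hmulP : ∀ x ∈ P, ∀ y ∈ P, x * y ∈ P := by
    intro x hx y hy
    induction hx, hy using Submodule.span_induction₂ with
    | mem_mem x y hx hy =>
      obtain ⟨J, rfl⟩ := hx
      obtain ⟨L, rfl⟩ := hy
      obtain ⟨q, h1, h2⟩ := hmul J L
      exact hP _ q h1 h2
    | zero_left y hy => rw [zero_mul]; exact P.zero_mem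
    | zero_right x hx => rw [mul_zero]; exact P.zero_mem
    | add_left x y z hx hy hz h1 h2 => rw [add_mul]; exact P.add_mem h1 h2
    | add_right x y z hx hy hz h1 h2 => rw [mul_add]; exact P.add_mem h1 h2
    | smul_left q x y hx hy h => rw [smul_mul_assoc]; exact P.smul_mem _ h
    | smul_right q x y hx hy h => rw [mul_smul_comm]; exact P.smul_mem _ h
  have hcommP : ∀ x ∈ P, ∀ y ∈ P, x * y = y * x := by
    intro x hx y hy
    induction hx, hy using Submodule.span_induction₂ with
    | mem_mem x y hx hy =>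
      obtain ⟨J, rfl⟩ := hx
      obtain ⟨L, rfl⟩ := hy
      exact Prod.ext (hcomm _ _) (hcomm' _ _)
    | zero_left y hy => rw [zero_mul, mul_zero]
    | zero_right x hx => rw [zero_mul, mul_zero]
    | add_left x y z hx hy hz h1 h2 => rw [add_mul, mul_add, h1, h2]
    | add_right x y z hx hy hz h1 h2 => rw [mul_add, add_mul, h1, h2]
    | smul_left q x y hx hy h => rw [smul_mul_assoc, mul_smul_comm, h]
    | smul_right q x y hx hy h => rw [mul_smul_comm, smul_mul_assoc, h]
  let σ : E × E →+* E × E := (RingHom.snd _ _).prod (RingHom.fst _ _)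
  have hσ1 : ∀ x, σ x = (x.2, x.1) := fun _ => rfl
  have hσ : ∀ x ∈ P, σ x ∈ P := by
    intro x hx
    induction hx using Submodule.span_induction with
    | mem x hx =>
      obtain ⟨J, rfl⟩ := hx
      obtain ⟨q, h1, h2⟩ := hswap J
      exact hP _ q h1 h2
    | zero => rw [map_zero]; exact P.zero_mem
    | add x y hx hy h1 h2 => rw [map_add]; exact P.add_mem h1 h2
    | smul q x hx h1 =>
      have h2 : σ (q • x) = q • σ x := rfl
      rw [h2]
      exact P.smul_mem _ h1
  have hpos : ∀ x ∈ P, x * σ x = 0 → x = 0 := by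
    intro x hx h0
    obtain ⟨q, rfl⟩ := (Submodule.mem_span_range_iff_exists_fun ℚ).1 hx
    have h1 : (∑ J, q J • TJ J).1 * (∑ J, q J • TJ J).2 = 0 := congrArg Prod.fst h0
    rw [hfst, hsnd] at h1
    have h5 : (∑ J, q J ^ 2 * t J : ℚ) = 0 := by
      have h6 : ((∑ J, q J ^ 2 * t J : ℚ) : K) = 0 := by
        have h7 := congrArg lam h1
        rw [Finset.sum_mul, map_sum, map_zero] at h7
        rw [← h7]
        push_cast
        refine Finset.sum_congr rfl fun J _ => ?_
        rw [Finset.mul_sum, map_sum]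
        simp only [smul_mul_smul_comm, map_smul, hlam, smul_eq_mul, mul_ite, mul_zero,
          Finset.sum_ite_eq, Finset.mem_univ, if_true]
        ring
      exact_mod_cast h6
    have h8 := (Finset.sum_eq_zero_iff_of_nonneg fun J _ =>
      mul_nonneg (sq_nonneg (q J)) (ht J).le).1 h5
    refine Finset.sum_eq_zero fun J hJ => ?_
    rcases mul_eq_zero.1 (h8 J hJ) with h10 | h10
    · rw [pow_eq_zero_iff two_ne_zero] at h10
      rw [h10, zero_smul]
    · exact absurd h10 (ht J).ne'
  obtain ⟨D, -, hD⟩ := star_dvd P hmulP hcommP σ hσ (fun x => rfl) hpos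
    (U := ∑ l, q l • TJ l) (hP _ q (hfst q) (hsnd q))
  refine ⟨D.1, ?_⟩
  rw [← hfst, ← hsnd]
  exact congrArg Prod.fst hD

end abs

section main

variable {K : Type v} [Field K] [CharZero K] {V : Type v} [AddCommGroup V] [Module K V] {n m : ℕ}
  {e e' : Module.Basis (Fin n) K V} {ψ : V →ₗ[K] V →ₗ[K] K}

/-- closure under the slot operators -/
theorem T_mem {C : Subring (Module.End K V)} {F : AddSubgroup (MF K V m)}
    (hF : ∀ a ∈ C, ∀ f ∈ F, ∀ s,
      f.compLinearMap (Function.update (fun _ => LinearMap.id) s a) ∈ F)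
    {d : Fin m → Module.End K V} (hd : ∀ s, d s ∈ C) {f : MF K V m} (hf : f ∈ F) :
    T d f ∈ F := by
  classical
  have key : ∀ A : Finset (Fin m),
      f.compLinearMap (fun s => if s ∈ A then d s else LinearMap.id) ∈ F := by
    intro A
    induction A using Finset.induction_on with
    | empty =>
      have h : f.compLinearMap (fun s => if s ∈ (∅ : Finset (Fin m)) then d s else LinearMap.id) =
          f := by
        ext x
        simp
      rw [h]
      exact hf
    | insert s A hs ih =>
      have h := hF (d s) (hd s) _ ih s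
      have h2 : (f.compLinearMap (fun s => if s ∈ A then d s else LinearMap.id)).compLinearMap
          (Function.update (fun _ => LinearMap.id) s (d s)) =
          f.compLinearMap (fun i => if i ∈ insert s A then d i else LinearMap.id) := by
        ext x
        rw [MultilinearMap.compLinearMap_apply, MultilinearMap.compLinearMap_apply,
          MultilinearMap.compLinearMap_apply]
        congr 1
        funext i
        by_cases hi : i = s
        · subst hi
          rw [Function.update_self, if_neg hs, if_pos (Finset.mem_insert_self _ _)]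
          rfl
        · rw [Function.update_of_ne hi]
          by_cases hiA : i ∈ A
          · rw [if_pos hiA, if_pos (Finset.mem_insert_of_mem hiA)]
            rfl
          · rw [if_neg hiA, if_neg]
            · rfl
            · rw [Finset.mem_insert]
              push Not
              exact ⟨hi, hiA⟩
      rw [← h2]
      exact h
  have h := key Finset.univ
  have h2 : T d f = f.compLinearMap (fun s => if s ∈ Finset.univ then d s else LinearMap.id) := by
    ext x
    rw [T_apply, MultilinearMap.compLinearMap_apply, MultilinearMap.compLinearMap_apply]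
    simp only [Finset.mem_univ, if_true]
  rw [h2]
  exact h

end main

theorem ann : S_ann.{v} := by
  intro K _ _ V _ _ n m e e' ψ hee hanti C hCcomm hCQ hCst F hFQ hFslot hFQK a a' ha haa' f hf hfa
  classical
  obtain ⟨r, c, c', t, hc, hc', hadj, ht, hct, hspan⟩ := exists_orth hee hanti C hCQ
    (fun a ha => hCst a ha)
  let τ : (Fin m → Fin r) → Module.End K (MF K V m) := fun J => T fun s => c (J s)
  let τ' : (Fin m → Fin r) → Module.End K (MF K V m) := fun J => T fun s => c' (J s)
  have hTP : ∀ d d' : Fin m → Module.End K V, (∀ s, d s ∈ C) → (∀ s, Adj ψ (d s) (d' s)) →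
      ∃ q : (Fin m → Fin r) → ℚ, T d = ∑ J, (q J : K) • τ J ∧ T d' = ∑ J, (q J : K) • τ' J := by
    intro d d' hd hdd'
    choose q hq using fun s => hspan (d s) (hd s)
    have hq' : ∀ s, d' s = ∑ i, (q s i : K) • c' i := fun s =>
      adj_unique hee (hdd' s) (by
        rw [hq s]
        exact adj_sum _ fun i _ => adj_smul _ (hadj i))
    refine ⟨fun J => ∏ s, q s (J s), ?_, ?_⟩
    · have h2 : d = fun s => ∑ i, (q s i : K) • c i := funext hq
      rw [h2, T_sum]
      push_cast
      rfl
    · have h3 : d' = fun s => ∑ i, (q s i : K) • c' i := funext hq'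
      rw [h3, T_sum]
      push_cast
      rfl
  have hstar := abs_star τ τ' (fun J => ∏ s, t (J s)) (lam e)
    (fun J => Finset.prod_pos fun s _ => ht (J s))
    (fun J L => by
      have h1 : τ J * τ L = T fun s => c (L s) * c (J s) := T_mul _ _
      have h2 : τ' J * τ' L = T fun s => c' (L s) * c' (J s) := T_mul _ _
      rw [h1, h2]
      apply hTP
      · exact fun s => C.mul_mem (hc _) (hc _)
      · intro s
        rw [hCcomm _ (hc' (L s)) _ (hc' (J s))]
        exact adj_mul (hadj _) (hadj _))
    (fun J L => by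
      change T _ * T _ = T _ * T _
      rw [T_mul, T_mul]
      congr 1
      funext s
      exact hCcomm _ (hc _) _ (hc _))
    (fun J L => by
      change T _ * T _ = T _ * T _
      rw [T_mul, T_mul]
      congr 1
      funext s
      exact hCcomm _ (hc' _) _ (hc' _))
    (fun J => hTP _ _ (fun s => hc' _) fun s => adj_symm hanti (hadj _))
    (fun J L => by
      change lam e (T _ * T _) = _
      rw [T_mul, lam_T]
      simp only [LinearMap.trace_mul_comm K (c' _) (c _), hct]
      split_ifs with h
      · subst h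
        push_cast
        simp
      · obtain ⟨s, hs⟩ := Function.ne_iff.1 h
        exact Finset.prod_eq_zero (Finset.mem_univ s) (if_neg hs))
  -- the operators `a`, `a'`
  have hle : Submodule.span K (C : Set (Module.End K V)) ≤ Submodule.span K (Set.range c) := by
    rw [Submodule.span_le]
    intro x hx
    obtain ⟨q, rfl⟩ := hspan x hx
    exact Submodule.sum_mem _ fun i _ => Submodule.smul_mem _ _ (Submodule.subset_span ⟨i, rfl⟩)
  choose α hα using fun s => (Submodule.mem_span_range_iff_exists_fun K).1 (hle (ha s))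
  have hα' : ∀ s, a' s = ∑ i, α s i • c' i := fun s =>
    adj_unique hee (fun x y => haa' s x y) (by
      rw [← hα s]
      exact adj_sum _ fun i _ => adj_smul _ (hadj i))
  have hTa : T a = ∑ J : Fin m → Fin r, (∏ s, α s (J s)) • τ J := by
    have h2 : a = fun s => ∑ i, α s i • c i := funext fun s => (hα s).symm
    rw [h2, T_sum]
  have hTa' : T a' = ∑ J : Fin m → Fin r, (∏ s, α s (J s)) • τ' J := by
    have h2 : a' = fun s => ∑ i, α s i • c' i := funext hα'
    rw [h2, T_sum]
  obtain ⟨N, θ, ρ, hθ, hρ⟩ := exists_ri (fun J : Fin m → Fin r => ∏ s, α s (J s))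
  have hgen : ∀ τ₀ : (Fin m → Fin r) → Module.End K (MF K V m),
      ∑ J : Fin m → Fin r, (∏ s, α s (J s)) • τ₀ J = ∑ b, θ b • ∑ J, (ρ J b : K) • τ₀ J := by
    intro τ₀
    simp only [Finset.smul_sum]
    rw [Finset.sum_comm]
    refine Finset.sum_congr rfl fun J _ => ?_
    rw [hρ J, Finset.sum_smul]
    refine Finset.sum_congr rfl fun b _ => ?_
    rw [smul_smul, mul_comm]
  rw [hgen] at hTa hTa'
  have hUF : ∀ b, (∑ J, (ρ J b : K) • τ J) f ∈ F := by
    intro b
    rw [LinearMap.sum_apply]
    refine F.sum_mem fun J _ => ?_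
    rw [LinearMap.smul_apply]
    exact hFQ _ _ (T_mem hFslot (fun s => hc _) hf)
  have h0 : ∑ b, θ b • (∑ J, (ρ J b : K) • τ J) f = 0 := by
    have h1 : T a f = 0 := hfa
    rw [hTa, LinearMap.sum_apply] at h1
    exact h1
  have h1 := coeff_zero hFQ hFQK hθ hUF h0
  change T a' f = 0
  rw [hTa', LinearMap.sum_apply]
  refine Finset.sum_eq_zero fun b _ => ?_
  obtain ⟨D, hD⟩ := hstar (fun J => ρ J b)
  rw [LinearMap.smul_apply, hD, Module.End.mul_apply, h1 b, map_zero, smul_zero]

end Pool.Agent.Y37.KN
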