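import Pool.Agent.Y150.KN.Stm5

/-!
# (S_cent, S_zen, S_qk) linear algebra (project KN of helper150; helper37, job 895)
-/

set_option autoImplicit false

namespace Pool.Agent.Y37.KN

universe u v w

open Pool.Agent.Y150.KN

section rat

variable {K : Type*} [Field K] [CharZero K] {M : Type*} [AddCommGroup M] [Module K M]

/-- A finite family has a rational basis. -/
theorem exists_rat_basis {ι : Type*} [Fintype ι] (c : ι → M) :
    ∃ (L : ℕ) (g : Fin L → M) (r : ι → Fin L → ℚ) (s : Fin L → ι → ℚ),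
      (∀ q : Fin L → ℚ, ∑ l, (q l : K) • g l = 0 → q = 0) ∧
      (∀ i, c i = ∑ l, (r i l : K) • g l) ∧ ∀ l, g l = ∑ i, (s l i : K) • c i := by
  let _ : Module ℚ M := Module.compHom M (algebraMap ℚ K)
  have hsm : ∀ (q : ℚ) (x : M), q • x = (q : K) • x := by
    intro q x
    change (algebraMap ℚ K q) • x = _
    rw [eq_ratCast]
  let S : Submodule ℚ M := Submodule.span ℚ (Set.range c)
  have hS : FiniteDimensional ℚ S := FiniteDimensional.span_of_finite ℚ (Set.finite_range c)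
  let b := Module.finBasis ℚ S
  have hs : ∀ l, ∃ s : ι → ℚ, ∑ i, s i • c i = (b l : M) := fun l =>
    (Submodule.mem_span_range_iff_exists_fun ℚ).1 (b l).2
  choose s hs using hs
  refine ⟨Module.finrank ℚ S, fun l => (b l : M),
    fun i l => b.repr ⟨c i, Submodule.subset_span ⟨i, rfl⟩⟩ l, s, ?_, ?_, ?_⟩
  · intro q hq
    have h1 : ∑ l, q l • b l = 0 := by
      apply Subtype.ext
      rw [AddSubmonoidClass.coe_finsetSum, ZeroMemClass.coe_zero]
      simpa only [Submodule.coe_smul, hsm] using hq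
    funext l
    exact Fintype.linearIndependent_iff.1 b.linearIndependent q h1 l
  · intro i
    have h1 := b.sum_repr ⟨c i, Submodule.subset_span ⟨i, rfl⟩⟩
    have h2 := congrArg (fun x : S => (x : M)) h1
    simp only [AddSubmonoidClass.coe_finsetSum, Submodule.coe_smul, hsm] at h2
    exact h2.symm
  · intro l
    have h1 := hs l
    simp only [hsm] at h1
    exact h1.symm

/-- rational independence of scalars -/
def RI {N : ℕ} (θ : Fin N → K) : Prop := ∀ q : Fin N → ℚ, ∑ i, (q i : K) * θ i = 0 → q = 0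

theorem exists_ri {ι : Type*} [Fintype ι] (κ : ι → K) :
    ∃ (L : ℕ) (θ : Fin L → K) (r : ι → Fin L → ℚ), RI θ ∧ ∀ i, κ i = ∑ l, (r i l : K) * θ l := by
  obtain ⟨L, θ, r, -, h1, h2, -⟩ := exists_rat_basis (K := K) κ
  exact ⟨L, θ, r, h1, h2⟩

/-- Rationally independent scalars are independent over a rational structure. -/
theorem coeff_zero {T : AddSubgroup M} (hT : ∀ q : ℚ, ∀ x ∈ T, (q : K) • x ∈ T)
    (hQ : QK K (T : Set M)) {N : ℕ} {θ : Fin N → K} (hθ : RI θ) {c : Fin N → M}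
    (hc : ∀ i, c i ∈ T) (h0 : ∑ i, θ i • c i = 0) : ∀ i, c i = 0 := by
  obtain ⟨L, g, r, s, h1, h2, h3⟩ := exists_rat_basis (K := K) c
  have hg : ∀ l, g l ∈ T := by
    intro l
    rw [h3 l]
    exact T.sum_mem fun i _ => hT _ _ (hc i)
  have h4 : ∑ l, (∑ i, (r i l : K) * θ i) • g l = 0 := by
    rw [← h0]
    simp only [Finset.sum_smul]
    rw [Finset.sum_comm]
    refine Finset.sum_congr rfl fun i _ => ?_
    rw [h2 i, Finset.smul_sum]
    refine Finset.sum_congr rfl fun l _ => ?_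
    rw [smul_smul, mul_comm]
  have h5 := hQ L g hg h1 _ h4
  intro i
  rw [h2 i]
  refine Finset.sum_eq_zero fun l _ => ?_
  have h6 := hθ (fun i => r i l) (congrFun h5 l)
  rw [show r i l = 0 from congrFun h6 i, Rat.cast_zero, zero_smul]

/-- Every member of the linear hull is a combination of members with rationally independent
coefficients. -/
theorem exists_repr_ri {T : AddSubgroup M} (hT : ∀ q : ℚ, ∀ x ∈ T, (q : K) • x ∈ T) {z : M}
    (hz : z ∈ Submodule.span K (T : Set M)) :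
    ∃ (L : ℕ) (θ : Fin L → K) (d : Fin L → M), RI θ ∧ (∀ l, d l ∈ T) ∧ z = ∑ l, θ l • d l := by
  obtain ⟨n, κ, b, rfl⟩ := Submodule.mem_span_set'.1 hz
  obtain ⟨L, θ, r, h1, h2⟩ := exists_ri κ
  refine ⟨L, θ, fun l => ∑ j, (r j l : K) • (b j : M), h1, fun l =>
    T.sum_mem fun j _ => hT _ _ (b j).2, ?_⟩
  simp only [Finset.smul_sum]
  rw [Finset.sum_comm]
  refine Finset.sum_congr rfl fun j _ => ?_
  rw [h2 j, Finset.sum_smul]
  refine Finset.sum_congr rfl fun l _ => ?_
  rw [smul_smul, mul_comm]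

end rat

theorem qk : S_qk.{v} := by
  intro K K' _ _ _ _ M M' _ _ _ _ ι s hs hsm T T' hTT' hQ N f hf hfQ c hc
  have h1 : ∀ q : Fin N → ℚ, ∑ i, (q i : K') • s (f i) = 0 → q = 0 := by
    intro q hq
    apply hfQ q
    apply hs
    rw [map_sum, map_zero, ← hq]
    refine Finset.sum_congr rfl fun i _ => ?_
    rw [hsm, map_ratCast]
  have h2 := hQ N (fun i => s (f i)) (fun i => hTT' _ (hf i)) h1 (fun i => ι (c i)) (by
    have h3 := congrArg s hc
    rw [map_sum, map_zero] at h3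
    rw [← h3]
    exact Finset.sum_congr rfl fun i _ => (hsm _ _).symm)
  funext i
  have h3 := congrFun h2 i
  exact (map_eq_zero ι).1 h3

theorem zen : S_zen.{v} := by
  intro K _ _ V _ _ _ O hO hQ z hz hcomm
  obtain ⟨L, θ, d, h1, h2, rfl⟩ := exists_repr_ri (T := O.toAddSubgroup) hO hz
  refine Submodule.sum_mem _ fun l _ => Submodule.smul_mem _ _ (Submodule.subset_span ⟨h2 l, ?_⟩)
  intro a ha
  have h3 : ∑ l, θ l • (d l * a - a * d l) = 0 := by
    have h4 := hcomm a ha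
    rw [Finset.sum_mul, Finset.mul_sum, ← sub_eq_zero, ← Finset.sum_sub_distrib] at h4
    rw [← h4]
    refine Finset.sum_congr rfl fun l _ => ?_
    rw [smul_sub, smul_mul_assoc, mul_smul_comm]
  have h5 := coeff_zero (T := O.toAddSubgroup) hO hQ h1 (c := fun l => d l * a - a * d l)
    (fun l => O.sub_mem (O.mul_mem (h2 l) ha) (O.mul_mem ha (h2 l))) h3 l
  exact sub_eq_zero.1 h5

section cent

variable {K : Type v} [Field K] {V : Type v} [AddCommGroup V] [Module K V] {Γ : Type w} [Group Γ]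
  {ρ : Representation K Γ V}

/-- the projection onto a stable subspace along a stable complement -/
theorem exists_proj {U U' : Submodule K V} (hU : Stable ρ U) (hU' : Stable ρ U')
    (hcompl : IsCompl U U') :
    ∃ p ∈ commAlg ρ, (∀ x, p x ∈ U) ∧ (∀ x ∈ U, p x = x) ∧ ∀ x ∈ U', p x = 0 := by
  let p : V →ₗ[K] V := U.subtype ∘ₗ Submodule.projectionOnto U U' hcompl
  have hpU : ∀ x ∈ U, p x = x := by
    intro x hx
    change ((Submodule.projectionOnto U U' hcompl) x : V) = x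
    exact congrArg Subtype.val (Submodule.projectionOnto_apply_left hcompl ⟨x, hx⟩)
  have hpU' : ∀ x ∈ U', p x = 0 := by
    intro x hx
    change ((Submodule.projectionOnto U U' hcompl) x : V) = 0
    rw [Submodule.projectionOnto_apply_of_mem_right hcompl hx]
    rfl
  refine ⟨p, ?_, fun x => Subtype.mem _, hpU, hpU'⟩
  rw [mem_commAlg]
  intro g x
  obtain ⟨y, hy, z, hz, rfl⟩ : ∃ y ∈ U, ∃ z ∈ U', y + z = x := by
    have hx : x ∈ U ⊔ U' := by rw [hcompl.sup_eq_top]; trivial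
    exact Submodule.mem_sup.1 hx
  rw [map_add, map_add, map_add, hpU y hy, hpU' z hz, hpU _ (hU g y hy), hpU' _ (hU' g z hz),
    add_zero, add_zero]

/-- von Neumann regularity of the commutant -/
theorem exists_reg (hss : ∀ U, Stable ρ U → ∃ U', Stable ρ U' ∧ IsCompl U U')
    {h : Module.End K V} (hh : h ∈ commAlg ρ) : ∃ k ∈ commAlg ρ, h * k * h = h := by
  rw [mem_commAlg] at hh
  have hN : Stable ρ (LinearMap.ker h) := by
    intro g x hx
    rw [LinearMap.mem_ker] at hx ⊢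
    rw [hh, hx, map_zero]
  obtain ⟨W, hW, hNW⟩ := hss _ hN
  let hW' : W →ₗ[K] V := h.domRestrict W
  have hinj : Function.Injective hW' := by
    rw [← LinearMap.ker_eq_bot, LinearMap.ker_eq_bot']
    rintro ⟨x, hx⟩ h0
    have h1 : x ∈ LinearMap.ker h ⊓ W := ⟨h0, hx⟩
    rw [hNW.inf_eq_bot, Submodule.mem_bot] at h1
    exact Subtype.ext h1
  have hR : Stable ρ (LinearMap.range hW') := by
    rintro g _ ⟨⟨x, hx⟩, rfl⟩
    exact ⟨⟨ρ g x, hW g x hx⟩, hh g x⟩
  obtain ⟨R', hR', hRR'⟩ := hss _ hR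
  obtain ⟨p, hp, hp1, hp2, hp3⟩ := exists_proj hR hR' hRR'
  let e := LinearEquiv.ofInjective hW' hinj
  let k : Module.End K V := W.subtype ∘ₗ e.symm.toLinearMap ∘ₗ p.codRestrict _ hp1
  have hk : ∀ w (hw : w ∈ W), k (h w) = w := by
    intro w hw
    have h1 : (p.codRestrict _ hp1) (h w) = e ⟨w, hw⟩ := by
      apply Subtype.ext
      exact hp2 _ ⟨⟨w, hw⟩, rfl⟩
    change (W.subtype (e.symm ((p.codRestrict _ hp1) (h w)))) = w
    rw [h1, LinearEquiv.symm_apply_apply]
    rfl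
  have hk0 : ∀ x ∈ R', k x = 0 := by
    intro x hx
    have h1 : (p.codRestrict _ hp1) x = 0 := Subtype.ext (hp3 x hx)
    change (W.subtype (e.symm ((p.codRestrict _ hp1) x))) = 0
    rw [h1, map_zero, map_zero]
  refine ⟨k, ?_, ?_⟩
  · rw [mem_commAlg]
    intro g x
    obtain ⟨y, hy, z, hz, rfl⟩ : ∃ y ∈ LinearMap.range hW', ∃ z ∈ R', y + z = x := by
      have hx : x ∈ LinearMap.range hW' ⊔ R' := by rw [hRR'.sup_eq_top]; trivial
      exact Submodule.mem_sup.1 hx
    obtain ⟨⟨w, hw⟩, rfl⟩ := hy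
    have h1 : k (hW' ⟨w, hw⟩) = w := hk w hw
    have h2 : k (ρ g (hW' ⟨w, hw⟩)) = ρ g w := by
      have h3 : ρ g (hW' ⟨w, hw⟩) = h (ρ g w) := (hh g w).symm
      rw [h3, hk _ (hW g w hw)]
    rw [map_add, map_add, map_add, h2, hk0 z hz, hk0 _ (hR' g z hz), h1, map_add, map_zero]
  · ext x
    obtain ⟨y, hy, z, hz, rfl⟩ : ∃ y ∈ LinearMap.ker h, ∃ z ∈ W, y + z = x := by
      have hx : x ∈ LinearMap.ker h ⊔ W := by rw [hNW.sup_eq_top]; trivial
      exact Submodule.mem_sup.1 hx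
    rw [LinearMap.mem_ker] at hy
    rw [Module.End.mul_apply, Module.End.mul_apply, map_add, hy, zero_add, hk z hz]

end cent

theorem cent : S_cent.{v, w} := by
  intro K _ V _ _ _ Γ _ ρ hss F hF hFa
  obtain ⟨U', hU', hcompl⟩ := hss F hF
  obtain ⟨p, hp, hp1, hp2, -⟩ := exists_proj hF hU' hcompl
  refine ⟨p, hp, ?_, hp1, hp2⟩
  have hpp : ∀ a ∈ commAlg ρ, a * p = p * a * p := by
    intro a ha
    ext x
    rw [Module.End.mul_apply, Module.End.mul_apply, Module.End.mul_apply,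
      hp2 _ (hFa a ha _ (hp1 x))]
  intro a ha
  have hh : p * a * (1 - p) ∈ commAlg ρ :=
    (commAlg ρ).mul_mem ((commAlg ρ).mul_mem hp ha) ((commAlg ρ).sub_mem (one_mem _) hp)
  obtain ⟨k, hk, hk1⟩ := exists_reg hss hh
  have h1 : p * p = p := by
    ext x
    rw [Module.End.mul_apply, hp2 _ (hp1 x)]
  have h2 : (1 - p) * (k * p) = 0 := by
    rw [hpp k hk, sub_mul, one_mul, ← mul_assoc, ← mul_assoc, h1, sub_self]
  have h3 : p * a * (1 - p) = 0 := by
    rw [← hk1]
    have h4 : p * a * (1 - p) * k * (p * a * (1 - p)) =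
        p * a * ((1 - p) * (k * p)) * (a * (1 - p)) := by
      simp only [mul_assoc]
    rw [h4, h2, mul_zero, zero_mul]
  rw [mul_sub, mul_one, sub_eq_zero] at h3
  rw [h3, ← hpp a ha]

end Pool.Agent.Y37.KN
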